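import Pool.Agent.Run7.h568.DG.Iface

/-!
# Piece S_H00 of project DG: positivity of the first entry
-/

set_option autoImplicit false

open Real Matrix

namespace Run7.h53.DG

open Run7.h568.DG

lemma mul_ent (g h : SL) (a b : Fin 2) : (g * h).1 a b = g.1 a 0 * h.1 0 b + g.1 a 1 * h.1 1 b := by
  show (g.1 * h.1) a b = _
  rw [Matrix.mul_apply, Fin.sum_univ_two]

lemma inv_ent (g : SL) : (g⁻¹).1 = !![g.1 1 1, -g.1 0 1; -g.1 1 0, g.1 0 0] := by
  show Matrix.adjugate g.1 = _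
  exact Matrix.adjugate_fin_two _

/-- nonnegative entries, positive diagonal -/
def Cp (g : SL) : Prop := 0 < g.1 0 0 ∧ 0 < g.1 1 1 ∧ 0 ≤ g.1 0 1 ∧ 0 ≤ g.1 1 0

/-- positive diagonal, nonpositive off-diagonal entries -/
def Cm (g : SL) : Prop := 0 < g.1 0 0 ∧ 0 < g.1 1 1 ∧ g.1 0 1 ≤ 0 ∧ g.1 1 0 ≤ 0

lemma Cp_one : Cp 1 := by
  refine ⟨?_, ?_, ?_, ?_⟩ <;> simp

lemma Cm_one : Cm 1 := by
  refine ⟨?_, ?_, ?_, ?_⟩ <;> simp

lemma Cp_mul {g h : SL} (hg : Cp g) (hh : Cp h) : Cp (g * h) := by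
  obtain ⟨g1, g2, g3, g4⟩ := hg
  obtain ⟨h1, h2, h3, h4⟩ := hh
  refine ⟨?_, ?_, ?_, ?_⟩ <;> rw [mul_ent]
  · exact add_pos_of_pos_of_nonneg (mul_pos g1 h1) (mul_nonneg g3 h4)
  · exact add_pos_of_nonneg_of_pos (mul_nonneg g4 h3) (mul_pos g2 h2)
  · exact add_nonneg (mul_nonneg g1.le h3) (mul_nonneg g3 h2.le)
  · exact add_nonneg (mul_nonneg g4 h1.le) (mul_nonneg g2.le h4)

lemma Cm_mul {g h : SL} (hg : Cm g) (hh : Cm h) : Cm (g * h) := by
  obtain ⟨g1, g2, g3, g4⟩ := hg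
  obtain ⟨h1, h2, h3, h4⟩ := hh
  refine ⟨?_, ?_, ?_, ?_⟩ <;> rw [mul_ent]
  · exact add_pos_of_pos_of_nonneg (mul_pos g1 h1) (mul_nonneg_of_nonpos_of_nonpos g3 h4)
  · exact add_pos_of_nonneg_of_pos (mul_nonneg_of_nonpos_of_nonpos g4 h3) (mul_pos g2 h2)
  · exact add_nonpos (mul_nonpos_of_nonneg_of_nonpos g1.le h3) (mul_nonpos_of_nonpos_of_nonneg g3 h2.le)
  · exact add_nonpos (mul_nonpos_of_nonpos_of_nonneg g4 h1.le) (mul_nonpos_of_nonneg_of_nonpos g2.le h4)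

lemma Cp_pow {g : SL} (hg : Cp g) (n : ℕ) : Cp (g ^ n) := by
  induction n with
  | zero => rw [pow_zero]; exact Cp_one
  | succ n ih => rw [pow_succ]; exact Cp_mul ih hg

lemma Cm_pow {g : SL} (hg : Cm g) (n : ℕ) : Cm (g ^ n) := by
  induction n with
  | zero => rw [pow_zero]; exact Cm_one
  | succ n ih => rw [pow_succ]; exact Cm_mul ih hg

lemma Cp_of {g : SL} (h : ∀ a b, 0 < g.1 a b) : Cp g := ⟨h 0 0, h 1 1, (h 0 1).le, (h 1 0).le⟩

lemma Cm_inv {g : SL} (h : ∀ a b, 0 < g.1 a b) : Cm g⁻¹ := by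
  refine ⟨?_, ?_, ?_, ?_⟩ <;> rw [inv_ent] <;> simp
  · exact h 1 1
  · exact h 0 0
  · exact (h 0 1).le
  · exact (h 1 0).le

lemma conj00 (g : SL) (s : ℝ) : ((E s)⁻¹ * g⁻¹ * E s).1 0 0 = g.1 0 0 := by
  rw [mul_ent, mul_ent, mul_ent, inv_ent, inv_ent]
  have h : exp (s / 2) * exp (-s / 2) = 1 := by
    rw [← Real.exp_add]; ring_nf; exact Real.exp_zero
  simp [E]
  linear_combination g.1 0 0 * h

/-- S_H00, from the positivity of the strands and the reversal of the product -/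
theorem H00 (h1 : S_H) (h2 : S_pos) : S_H00 := by
  intro D _ _ T t x hx d
  constructor
  · have hpos : ∀ i, i < T.num t.c d → ∀ a b, 0 < (t.str x (d, i)).1 a b :=
      fun i hi => (h2 T t x d i hi).2.2
    rcases t.sgn with hm | hm
    · have : Cp (t.H x d) := by
        refine List.prod_induction Cp (fun a b => Cp_mul) Cp_one ?_
        intro g hg
        rw [List.mem_map] at hg
        obtain ⟨i, hi, rfl⟩ := hg
        rw [List.mem_range] at hi
        obtain ⟨n, hn⟩ := Int.eq_ofNat_of_zero_le (hm (d, i))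
        rw [hn, zpow_natCast]
        exact Cp_pow (Cp_of (hpos i hi)) n
      exact this.1
    · have : Cm (t.H x d) := by
        refine List.prod_induction Cm (fun a b => Cm_mul) Cm_one ?_
        intro g hg
        rw [List.mem_map] at hg
        obtain ⟨i, hi, rfl⟩ := hg
        rw [List.mem_range] at hi
        obtain ⟨n, hn⟩ := Int.exists_eq_neg_ofNat (hm (d, i))
        rw [hn, _root_.zpow_neg, ← _root_.inv_zpow, zpow_natCast]
        exact Cm_pow (Cm_inv (hpos i hi)) n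
      exact this.1
  · rw [(h1 T t x hx d).2]
    exact conj00 _ _

end Run7.h53.DG
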