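import Pool.Agent.Run7.h968.TN.Defs5

/-!
# Piece iter5: the iteration
-/

set_option autoImplicit false

namespace Run7.h53.TN.I5

open Pool.Agent.Run7.h968.TN

/-- a finite set arranged in packs of two (with ones added) -/
lemma packs {K : Type} [Group K] (T : Finset K) (q : ℕ) (hq : T.card ≤ 2 * q) :
    ∃ t : Fin q → Fin 2 → K,
      Subgroup.closure (Set.range fun p : Fin q × Fin 2 => t p.1 p.2) = Subgroup.closure (T : Set K) := by
  classical
  refine ⟨fun j l => if hlt : (finProdFinEquiv (j, l)).val < T.card then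
    (T.equivFin.symm ⟨_, hlt⟩ : K) else 1, le_antisymm ?_ ?_⟩
  · rw [Subgroup.closure_le]
    rintro _ ⟨p, rfl⟩
    dsimp only
    split_ifs with hlt
    · exact Subgroup.subset_closure (Finset.mem_coe.2 (T.equivFin.symm ⟨_, hlt⟩).2)
    · exact Subgroup.one_mem _
  · rw [Subgroup.closure_le]
    intro t ht
    refine Subgroup.subset_closure ?_
    have hlt := (T.equivFin ⟨t, ht⟩).2
    have hlt' : (T.equivFin ⟨t, ht⟩).val < q * 2 := by omega
    refine ⟨finProdFinEquiv.symm ⟨(T.equivFin ⟨t, ht⟩).val, hlt'⟩, ?_⟩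
    dsimp only
    have e : finProdFinEquiv ((finProdFinEquiv.symm ⟨(T.equivFin ⟨t, ht⟩).val, hlt'⟩).1,
        (finProdFinEquiv.symm ⟨(T.equivFin ⟨t, ht⟩).val, hlt'⟩).2) =
        (⟨(T.equivFin ⟨t, ht⟩).val, hlt'⟩ : Fin (q * 2)) := by
      rw [Prod.mk.eta, Equiv.apply_symm_apply]
    rw [dif_pos (by rw [e]; exact hlt)]
    have e2 : (⟨(finProdFinEquiv ((finProdFinEquiv.symm ⟨(T.equivFin ⟨t, ht⟩).val, hlt'⟩).1,
        (finProdFinEquiv.symm ⟨(T.equivFin ⟨t, ht⟩).val, hlt'⟩).2)).val, by rw [e]; exact hlt⟩ :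
        Fin T.card) = T.equivFin ⟨t, ht⟩ := by
      apply Fin.ext
      simp only [e]
    rw [e2, Equiv.symm_apply_apply]

lemma rf_sub {G : Type} [Group G] (h : RF G) (H : Subgroup G) : RF H := by
  intro g hg
  obtain ⟨N, hN, hNi, hgN⟩ := h (g : G) (fun h1 => hg (Subtype.ext h1))
  have : N.FiniteIndex := ⟨hNi⟩
  refine ⟨N.subgroupOf H, inferInstance, Subgroup.FiniteIndex.index_ne_zero, ?_⟩
  rwa [Subgroup.mem_subgroupOf]

/-- the states of the iteration -/
def St (G : Type) [Group G] (M : ℕ) (R : ℝ) (k : ℕ) : Prop :=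
  ∃ (q : ℕ) (t : Fin q → Fin 2 → G),
    (Subgroup.closure (Set.range fun p : Fin q × Fin 2 => t p.1 p.2)).index ≠ 0 ∧
    M ≤ (Subgroup.closure (Set.range fun p : Fin q × Fin 2 => t p.1 p.2)).index ∧
    (q : ℝ) ≤ (7 / 8) ^ k * R *
      (Subgroup.closure (Set.range fun p : Fin q × Fin 2 => t p.1 p.2)).index

lemma low {G : Type} [Group G] {ε : ℝ} (hε : ∀ (H : Subgroup G) (T : Finset G),
    H.index ≠ 0 → Subgroup.closure (T : Set G) = H → ε * H.index ≤ T.card) (q : ℕ)
    (t : Fin q → Fin 2 → G)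
    (h : (Subgroup.closure (Set.range fun p : Fin q × Fin 2 => t p.1 p.2)).index ≠ 0) :
    ε * (Subgroup.closure (Set.range fun p : Fin q × Fin 2 => t p.1 p.2)).index ≤ 2 * q := by
  classical
  have h1 := hε _ (Finset.univ.image fun p : Fin q × Fin 2 => t p.1 p.2) h (by
    rw [Finset.coe_image, Finset.coe_univ, Set.image_univ])
  refine h1.trans ?_
  have h2 : (Finset.univ.image fun p : Fin q × Fin 2 => t p.1 p.2).card ≤ 2 * q := by
    refine Finset.card_image_le.trans (le_of_eq ?_)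
    rw [Finset.card_univ, Fintype.card_prod, Fintype.card_fin, Fintype.card_fin, mul_comm]
  exact_mod_cast h2

theorem t_iter5 (hstep : P_step5) (hrestr : P_restr5) (hrf : P_rf) : P_iter5 := by
  classical
  intro G _ hFG hRF hRG u hu
  by_contra hcon
  push Not at hcon
  replace hcon : ∀ (v : G) (h : Fin 2 → G), InfOrd v → Bad5 v h := hcon
  obtain ⟨ε, hε0, hε⟩ := hRG
  -- `G` is infinite
  have hinf : Infinite G := by
    by_contra hfin
    rw [not_infinite_iff_finite] at hfin
    have h1 := hε ⊥ ∅ Subgroup.FiniteIndex.index_ne_zero (by simp)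
    have h2 : (0 : ℝ) < ((⊥ : Subgroup G).index : ℝ) := by
      exact_mod_cast Nat.pos_of_ne_zero (Subgroup.FiniteIndex.index_ne_zero (H := (⊥ : Subgroup G)))
    have h3 := mul_pos hε0 h2
    simp only [Finset.card_empty, Nat.cast_zero] at h1
    linarith
  set M : ℕ := ⌈32 / ε⌉₊ with hM
  have hMε : 32 ≤ ε * M := by
    have h1 : 32 / ε ≤ M := Nat.le_ceil _
    rw [div_le_iff₀ hε0] at h1
    linarith
  -- the start
  obtain ⟨S, hS⟩ := Infinite.exists_subset_card_eq G M
  obtain ⟨N₀, hN₀, hN₀i, hN₀B⟩ := hrf G hRF ((S ×ˢ S).image fun p => p.1⁻¹ * p.2)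
  have hfi : N₀.FiniteIndex := ⟨hN₀i⟩
  have hMi : M ≤ N₀.index := by
    have hf : Finite (G ⧸ N₀) := inferInstance
    have hinj : Function.Injective fun s : S => (QuotientGroup.mk (s : G) : G ⧸ N₀) := by
      intro a b hab
      have h1 : (a : G)⁻¹ * b ∈ N₀ := QuotientGroup.eq.1 hab
      have h2 := hN₀B _ (Finset.mem_image.2 ⟨((a : G), (b : G)),
        Finset.mem_product.2 ⟨a.2, b.2⟩, rfl⟩) h1
      exact Subtype.ext (inv_mul_eq_one.1 h2)
    have h1 := Nat.card_le_card_of_injective _ hinj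
    rw [Nat.card_eq_fintype_card, Fintype.card_coe, hS] at h1
    exact h1
  have hFG₀ : Group.FG N₀ := Subgroup.fg_of_index_ne_zero N₀
  obtain ⟨T₀, hT₀⟩ := (Group.fg_iff_subgroup_fg N₀).1 hFG₀
  obtain ⟨R, hR⟩ : ∃ R : ℝ, R = (T₀.card : ℝ) := ⟨_, rfl⟩
  have hSt : ∀ k, St G M R k := by
    intro k
    induction k with
    | zero =>
      obtain ⟨t, ht⟩ := packs T₀ T₀.card (by omega)
      refine ⟨T₀.card, t, ?_⟩
      rw [ht, hT₀]
      refine ⟨hN₀i, hMi, ?_⟩
      rw [pow_zero, one_mul, hR]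
      have h1 : (1 : ℝ) ≤ N₀.index := by exact_mod_cast Nat.one_le_iff_ne_zero.2 hN₀i
      have h2 : (0 : ℝ) ≤ T₀.card := Nat.cast_nonneg _
      nlinarith
    | succ k ih =>
      obtain ⟨q, t, hi, hiM, hq⟩ := ih
      have hlow := low hε q t hi
      set k0 : Set G := Set.range fun p : Fin q × Fin 2 => t p.1 p.2 with hk0
      set h : Fin q → Fin 2 → Subgroup.closure k0 := fun j l =>
        ⟨t j l, Subgroup.subset_closure ⟨(j, l), rfl⟩⟩ with hh
      have hcl : Subgroup.closure (Set.range fun p : Fin q × Fin 2 => h p.1 p.2) = ⊤ := by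
        have e : (Set.range fun p : Fin q × Fin 2 => h p.1 p.2) =
            ((↑) : Subgroup.closure k0 → G) ⁻¹' k0 := by
          ext x
          constructor
          · rintro ⟨p, rfl⟩
            exact ⟨p, rfl⟩
          · rintro ⟨p, hp⟩
            exact ⟨p, Subtype.ext hp⟩
        rw [e]
        exact Subgroup.closure_closure_coe_preimage
      obtain ⟨n₀, hn₀, -, hu₀⟩ := Subgroup.exists_pow_mem_of_index_ne_zero hi u
      have hvo : InfOrd (⟨u ^ n₀, hu₀⟩ : Subgroup.closure k0) := by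
        intro n hn h1
        have h2 := congrArg Subtype.val h1
        simp only [Subgroup.coe_pow, OneMemClass.coe_one] at h2
        rw [← pow_mul] at h2
        exact hu _ (Nat.mul_pos hn₀ hn) h2
      have hvG : InfOrd (u ^ n₀) := by
        intro n hn h1
        rw [← pow_mul] at h1
        exact hu _ (Nat.mul_pos hn₀ hn) h1
      obtain ⟨N, T, hNi, hT, hTc⟩ := hstep (Subgroup.closure k0) (rf_sub hRF _) ⟨u ^ n₀, hu₀⟩ hvo q h hcl
        (fun j => hrestr G _ ⟨u ^ n₀, hu₀⟩ (h j) (hcon _ _ hvG))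
      -- the new state
      set T' : Finset G := T.image Subtype.val with hT'
      have hT'c : T'.card ≤ 2 * ((T.card + 1) / 2) := by
        refine Finset.card_image_le.trans ?_
        omega
      obtain ⟨t', ht'⟩ := packs T' ((T.card + 1) / 2) hT'c
      refine ⟨(T.card + 1) / 2, t', ?_⟩
      have hmap : Subgroup.closure (T' : Set G) = N.map (Subgroup.closure k0).subtype := by
        rw [hT', Finset.coe_image, ← hT, MonoidHom.map_closure]
        rfl
      rw [ht', hmap, Subgroup.index_map_subtype]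
      have hn1 : 1 ≤ N.index := Nat.one_le_iff_ne_zero.2 hNi
      refine ⟨mul_ne_zero hNi hi, hiM.trans (Nat.le_mul_of_pos_left _ hn1), ?_⟩
      set m : ℕ := (Subgroup.closure k0).index with hm
      have hn1' : (1 : ℝ) ≤ N.index := by exact_mod_cast hn1
      have hq' : (((T.card + 1) / 2 : ℕ) : ℝ) ≤ 1 / 2 * (q * N.index) + N.index := by
        have h1 : 2 * (((T.card + 1) / 2 : ℕ) : ℝ) ≤ T.card + 1 := by
          have : 2 * ((T.card + 1) / 2) ≤ T.card + 1 := Nat.mul_div_le _ _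
          exact_mod_cast this
        have h2 : (T.card : ℝ) ≤ (q + 1) * N.index := by exact_mod_cast hTc
        linarith
      have hq8 : (8 : ℝ) ≤ q := by
        have h1 : ε * M ≤ ε * m := mul_le_mul_of_nonneg_left (by exact_mod_cast hiM) hε0.le
        linarith
      have h3 : 8 * (N.index : ℝ) ≤ q * N.index := mul_le_mul_of_nonneg_right hq8 (by linarith)
      have h4 : (q : ℝ) * N.index ≤ (7 / 8) ^ k * R * m * N.index :=
        mul_le_mul_of_nonneg_right hq (by linarith)
      push_cast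
      calc (((T.card + 1) / 2 : ℕ) : ℝ) ≤ 7 / 8 * (q * N.index) := by linarith
        _ ≤ 7 / 8 * ((7 / 8) ^ k * R * m * N.index) := by linarith
        _ = (7 / 8) ^ (k + 1) * R * (N.index * m) := by ring
  -- the contradiction
  have hR0 : 0 ≤ R := by rw [hR]; exact Nat.cast_nonneg _
  obtain ⟨k, hk⟩ := exists_pow_lt_of_lt_one (show 0 < ε / (4 * R + 1) by positivity)
    (show (7 / 8 : ℝ) < 1 by norm_num)
  obtain ⟨q, t, hi, hiM, hq⟩ := hSt k
  have hlow := low hε q t hi
  set m : ℕ := (Subgroup.closure (Set.range fun p : Fin q × Fin 2 => t p.1 p.2)).index with hm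
  have hm0 : (0 : ℝ) < m := by exact_mod_cast Nat.pos_of_ne_zero hi
  have h1 : ε * m ≤ 2 * ((7 / 8) ^ k * R) * m := by linarith
  have h2 : ε ≤ 2 * ((7 / 8) ^ k * R) := le_of_mul_le_mul_right h1 hm0
  rw [lt_div_iff₀ (by positivity)] at hk
  have h3 : (0 : ℝ) < (7 / 8) ^ k := by positivity
  nlinarith

end Run7.h53.TN.I5
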