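import Pool.Agent.Run7.h968.TN.Defs

/-!
# Piece step: bad packs of generators of `K` and a deep enough normal subgroup
-/

set_option autoImplicit false

namespace Run7.h53.TN

open Pool.Agent.Run7.h968.TN

/-- all edges span -/
lemma spans_univ {K : Type} [Group K] (N : Subgroup K) {I : Type} (h : I → K)
    (hcl : Subgroup.closure (Set.range h) = ⊤) (F : Finset ((K ⧸ N) × I)) (hF : ∀ p, p ∈ F) :
    Spans N h F := by
  have key : ∀ g ∈ Subgroup.closure (Set.range h), ∀ a : K, Relation.EqvGen (adj N h F) a (g * a) := by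
    intro g hg
    induction hg using Subgroup.closure_induction with
    | mem x hx =>
      intro a
      obtain ⟨i, rfl⟩ := hx
      exact Relation.EqvGen.rel _ _ ⟨i, hF _, rfl⟩
    | one => intro a; rw [one_mul]; exact Relation.EqvGen.refl _
    | mul x y _ _ hx hy =>
      intro a
      rw [mul_assoc]
      exact Relation.EqvGen.trans _ _ _ (hy a) (hx (y * a))
    | inv x _ hx =>
      intro a
      have := hx (x⁻¹ * a)
      rw [mul_inv_cancel_left] at this
      exact Relation.EqvGen.symm _ _ this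
  intro a b
  have h1 := key (b * a⁻¹) (by rw [hcl]; exact Subgroup.mem_top _) a
  rwa [inv_mul_cancel_right] at h1

theorem t_step (hmin : P_min) (hcount : P_count) (hgens : P_gens) (hrf : P_rf) : P_step := by
  classical
  intro K _ hRF q h hcl hbad
  choose A₁ A₂ V hV h₁ h₂ using hbad
  -- the finite set
  set B : Finset K := Finset.univ.biUnion fun j : Fin q =>
    ((A₁ j ×ˢ A₁ j).image fun p => p.1⁻¹ * p.2) ∪ ((A₂ j ×ˢ A₂ j).image fun p => p.1⁻¹ * p.2) with hB
  obtain ⟨N, hN, hNi, hNB⟩ := hrf K hRF B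
  have hinj₁ : ∀ j, ∀ a ∈ A₁ j, ∀ b ∈ A₁ j, a⁻¹ * b ∈ N → a = b := by
    intro j a ha b hb hab
    have h1 := hNB (a⁻¹ * b) (by
      rw [hB, Finset.mem_biUnion]
      exact ⟨j, Finset.mem_univ _, Finset.mem_union_left _
        (Finset.mem_image.2 ⟨(a, b), Finset.mem_product.2 ⟨ha, hb⟩, rfl⟩)⟩) hab
    exact inv_mul_eq_one.1 h1
  have hinj₂ : ∀ j, ∀ a ∈ A₂ j, ∀ b ∈ A₂ j, a⁻¹ * b ∈ N → a = b := by
    intro j a ha b hb hab
    have h1 := hNB (a⁻¹ * b) (by
      rw [hB, Finset.mem_biUnion]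
      exact ⟨j, Finset.mem_univ _, Finset.mem_union_right _
        (Finset.mem_image.2 ⟨(a, b), Finset.mem_product.2 ⟨ha, hb⟩, rfl⟩)⟩) hab
    exact inv_mul_eq_one.1 h1
  haveI : N.FiniteIndex := ⟨hNi⟩
  haveI : Finite (K ⧸ N) := inferInstance
  letI : Fintype (K ⧸ N) := Fintype.ofFinite _
  set hI : Fin q × Fin 4 → K := fun p => h p.1 p.2 with hhI
  -- a minimal spanning set
  have hex : ∃ n : ℕ, ∃ F : Finset ((K ⧸ N) × (Fin q × Fin 4)), F.card = n ∧ Spans N hI F :=
    ⟨_, Finset.univ, rfl, spans_univ N hI hcl _ fun p => Finset.mem_univ p⟩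
  obtain ⟨F, hFc, hF⟩ := Nat.find_spec hex
  have hFm : ∀ F' : Finset ((K ⧸ N) × (Fin q × Fin 4)), F' ⊆ F → F' ≠ F → ¬ Spans N hI F' := by
    intro F' h1 h2 h3
    have h4 : F'.card < F.card := Finset.card_lt_card (Finset.ssubset_iff_subset_ne.2 ⟨h1, h2⟩)
    rw [hFc] at h4
    exact Nat.find_min hex h4 ⟨F', rfl, h3⟩
  have hj : ∀ j : Fin q, ((Finset.univ : Finset (K ⧸ N)).filter (fun y => (y, (j, (0 : Fin 4))) ∈ F)).card +
      ((Finset.univ : Finset (K ⧸ N)).filter (fun y => (y, (j, (1 : Fin 4))) ∈ F)).card +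
      (((Finset.univ : Finset (K ⧸ N)).filter (fun y => (y, (j, (2 : Fin 4))) ∈ F)).card +
      ((Finset.univ : Finset (K ⧸ N)).filter (fun y => (y, (j, (3 : Fin 4))) ∈ F)).card) ≤
      3 * Fintype.card (K ⧸ N) := by
    intro j
    refine hcount K N (Fin q × Fin 4) F (fun l => (j, l)) (A₁ j) (A₂ j) (V j) (hV j) ?_
    exact hmin K N (Fin q × Fin 4) hI F hF hFm (fun l => (j, l))
      (fun a b hab => (Prod.mk.inj hab).2) (A₁ j) (A₂ j) (V j) (h₁ j) (h₂ j) (hinj₁ j) (hinj₂ j)
  have hcard : F.card ≤ 3 * q * N.index := by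
    have e1 : F.card = ∑ p : Fin q × Fin 4,
        ((Finset.univ : Finset (K ⧸ N)).filter (fun y => (y, p) ∈ F)).card := by
      rw [Finset.card_eq_sum_card_fiberwise (f := Prod.snd) (t := Finset.univ)
        (fun _ _ => Finset.mem_coe.2 (Finset.mem_univ _))]
      refine Finset.sum_congr rfl fun p _ => ?_
      refine Finset.card_bij' (fun e _ => e.1) (fun y _ => (y, p)) ?_ ?_ ?_ ?_
      · rintro ⟨y, p'⟩ he
        rw [Finset.mem_filter] at he
        obtain ⟨he, rfl⟩ := he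
        exact Finset.mem_filter.2 ⟨Finset.mem_univ _, he⟩
      · intro y hy
        exact Finset.mem_filter.2 ⟨(Finset.mem_filter.1 hy).2, rfl⟩
      · rintro ⟨y, p'⟩ he
        rw [Finset.mem_filter] at he
        obtain ⟨he, rfl⟩ := he
        rfl
      · intro y _
        rfl
    rw [e1, Fintype.sum_prod_type]
    have e2 : ∀ j : Fin q, ∑ l : Fin 4,
        ((Finset.univ : Finset (K ⧸ N)).filter (fun y => (y, (j, l)) ∈ F)).card ≤
        3 * Fintype.card (K ⧸ N) := by
      intro j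
      rw [Fin.sum_univ_four, add_assoc (_ + _)]
      exact hj j
    refine (Finset.sum_le_sum fun j _ => e2 j).trans (le_of_eq ?_)
    rw [Finset.sum_const, Finset.card_univ, Fintype.card_fin, smul_eq_mul, Subgroup.index,
      Nat.card_eq_fintype_card]
    ring
  obtain ⟨T, hT, hTc⟩ := hgens K N (Fin q × Fin 4) hI F hF
  exact ⟨N, T, hNi, hT, hTc.trans hcard⟩

end Run7.h53.TN
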